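import Pool.Agent.H72.DfcD

set_option autoImplicit false
set_option linter.unusedVariables false

namespace Pool.Agent.Results.MP_54a553_al.Rdr

open IsLocalRing Pool.Agent.H72.Dfc IntermediateField

/-- The valuation ring `B` of `L` extends the valuation ring `A` of `K`. -/
def Over {K L : Type} [Field K] [Field L] [Algebra K L] (A : ValuationSubring K)
    (B : ValuationSubring L) : Prop := B.comap (algebraMap K L) = A

def Henselian {K : Type} [Field K] (A : ValuationSubring K) : Prop :=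
  ∀ (L : Type) [Field L] [Algebra K L] [Algebra.IsAlgebraic K L], ∃! B : ValuationSubring L, Over A B

/-- The value group `vK` inside `vL` (written multiplicatively). -/
noncomputable def vGrp (K : Type) {L : Type} [Field K] [Field L] [Algebra K L] (B : ValuationSubring L) :
    Subgroup B.ValueGroupˣ :=
  Subgroup.closure {g | ∃ a : K, B.valuation (algebraMap K L a) = g}

/-- The residue field `Kv` inside `Lv`. -/
noncomputable def rFld (K : Type) {L : Type} [Field K] [Field L] [Algebra K L] (B : ValuationSubring L) :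
    Subfield (ResidueField B) :=
  Subfield.closure {r | ∃ b : B, (b : L) ∈ Set.range (algebraMap K L) ∧ residue B b = r}

noncomputable def defect (K : Type) {L : Type} [Field K] [Field L] [Algebra K L]
    (B : ValuationSubring L) : ℕ :=
  Module.finrank K L / ((vGrp K B).index * Module.finrank (rFld K B) (ResidueField B))

def IndepDefect (K : Type) {L : Type} [Field K] [Field L] [Algebra K L]
    (B : ValuationSubring L) : Prop :=
  ∃ H : Subgroup B.ValueGroupˣ, H < vGrp K B ∧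
    (∀ α ∈ vGrp K B, ∀ h₁ ∈ H, ∀ h₂ ∈ H, h₁ ≤ α → α ≤ h₂ → α ∈ H) ∧
    (∀ α ∈ vGrp K B, (∀ h ∈ H, α < h) →
      ∃ β ∈ vGrp K B, (∀ h ∈ H, β < h) ∧ ∀ h ∈ H, α / β < h) ∧
    ∃ σ : L ≃ₐ[K] L, σ ≠ 1 ∧ ∀ α : B.ValueGroupˣ,
      (∃ f : L, f ≠ 0 ∧ B.valuation ((σ f - f) / f) = α) ↔ α ∈ vGrp K B ∧ ∀ h ∈ H, α < h

def IndepField {K : Type} [Field K] (A : ValuationSubring K) : Prop :=
  ∀ p : ℕ, p.Prime → CharP (ResidueField A) p →
    ∀ (K' : Type) [Field K'] [Algebra K K'] (A' : ValuationSubring K'), Over A A' →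
      (CharZero K ∧ IsCyclotomicExtension {p} K K' ∨
        CharP K p ∧ Function.Bijective (algebraMap K K')) →
      ∀ (M : Type) [Field M] [Algebra K' M] (B : ValuationSubring M), IsGalois K' M →
        Module.finrank K' M = p → (∀ B' : ValuationSubring M, Over A' B' ↔ B' = B) →
        1 < defect K' B → IndepDefect K' B

def Semiperfect (p : ℕ) (R : Type) [CommRing R] : Prop :=
  Function.Surjective (fun x : R ⧸ Ideal.span {(p : R)} => x ^ p)

def RDR {K : Type} [Field K] (A : ValuationSubring K) : Prop :=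
  ∀ p : ℕ, p.Prime → CharP (ResidueField A) p →
    (CharZero K → Semiperfect p A) ∧
    (CharP K p → Semiperfect p (Valued.integer A.valuation.Completion)) ∧
    ¬ IsGreatest {γ : A.ValueGroup | γ ≠ 0 ∧ γ < 1} (A.valuation p)

theorem chr {K : Type} [Field K] (A : ValuationSubring K) {p : ℕ} (hp : p.Prime) :
    CharP (ResidueField A) p ↔ A.valuation p < 1 := by
  rw [CharP.charP_iff_prime_eq_zero hp, ← map_natCast (residue A), residue_eq_zero_iff,
    A.valuation_lt_one_iff]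
  simp

theorem contra {K Ω : Type} [Field K] [Field Ω] [Algebra K Ω] [IsAlgClosed Ω]
    [Algebra.IsAlgebraic K Ω] {A : ValuationSubring K} (hH : Henselian A)
    (hI : ∀ (L : Type) [Field L] [Algebra K L] [Algebra.IsAlgebraic K L] (B : ValuationSubring L),
      Over A B → IndepField B) {W : ValuationSubring Ω} (hW : Over A W) {p : ℕ} (hp : p.Prime)
    (hinv : ∀ (σ : Ω ≃ₐ[K] Ω) x, W.valuation (σ x) = W.valuation x)
    (K1 : IntermediateField K Ω) {π a : Ω} (p1 : π ∈ K1) (a1 : a ∈ K1) (m0 : π ≠ 0)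
    (m1 : W.valuation π < 1) (m2 : W.valuation p ≤ W.valuation π) (ha : W.valuation a ≤ 1)
    (h : ∀ c ∈ K1, W.valuation π < W.valuation (a - c ^ p))
    (hc : CharZero K ∧ π = p ∨ CharP K p) : False := by
  obtain ⟨L, a, l1, l2, l3, l4, l5⟩ := good W.valuation hp hinv K1 p1 a1 m0 m1 m2 ha h
  have hζ : CharZero K → ∃ ζ : L, IsPrimitiveRoot ζ p := fun _ => by
    have := NeZero.mk hp.ne_zero
    obtain ⟨ζ, hζ⟩ := l4.root (Polynomial.cyclotomic p L) (by
      rw [Polynomial.natDegree_cyclotomic, Nat.totient_prime hp]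
      have := hp.two_le
      exact Nat.not_dvd_of_pos_of_lt (by omega) (by omega))
    exact ⟨ζ, Polynomial.isRoot_cyclotomic_iff.1 hζ⟩
  obtain ⟨d, hd⟩ : ∃ d : L, (d = 0 ∧ (⟨π, l1⟩ : L) = p ∧ ∃ ζ : L, ζ ≠ 1 ∧ ζ ^ p = 1) ∨
      (d = ⟨π, l1⟩ ^ (p - 1) ∧ CharP L p) := by
    rcases hc with ⟨h1, rfl⟩ | h1
    · obtain ⟨ζ, hζ⟩ := hζ h1
      exact ⟨0, Or.inl ⟨rfl, rfl, ζ, hζ.ne_one hp.one_lt, hζ.pow_eq_one⟩⟩
    · exact ⟨_, Or.inr ⟨rfl, charP_of_injective_algebraMap (algebraMap K L).injective p⟩⟩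
  obtain ⟨θ, t1, t2, t3, t4⟩ := dep W.valuation hp l4 ⟨π, l1⟩ ⟨a, l2⟩ d
    (fun e => m0 (congrArg Subtype.val e)) m1 m2 l3 (fun c => ⟨(l5 c c.2).1, by
      obtain ⟨c', h1, h2⟩ := (l5 c c.2).2
      exact ⟨⟨c', h1⟩, h2⟩⟩) hd
  have e1 := eqv W (algebraMap L Ω)
  have e2 := eqv W (algebraMap L⟮θ⟯ Ω)
  have o1 : Over A (W.comap (algebraMap L Ω)) := hW
  generalize hB : W.comap (algebraMap L⟮θ⟯ Ω) = B at *
  have hv : vGrp L B = ⊤ := by
    rw [eq_top_iff]
    intro g _
    obtain ⟨f, hf⟩ := B.valuation_surjective g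
    obtain ⟨e, u, h1, h2⟩ := t3 f f.2
    refine Subgroup.subset_closure ⟨e, hf ▸ e2.eq_iff.2 ?_⟩
    show W.valuation (algebraMap L Ω e) = W.valuation (f : Ω)
    rw [h1, map_mul, W.valuation.map_eq_of_sub_lt (y := u) (x := 1) (by simpa using h2), map_one,
      mul_one]
  have hr : rFld L B = ⊤ := by
    rw [eq_top_iff]
    intro g _
    obtain ⟨f, rfl⟩ := residue_surjective g
    obtain ⟨e, u, h1, h2⟩ := t3 f f.1.2
    have h3 : W.valuation (algebraMap L Ω e) ≤ 1 := by
      have := e2.le_one_iff_le_one.1 (B.valuation_le_one f)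
      change W.valuation (f.1 : Ω) ≤ 1 at this
      rwa [h1, map_mul, W.valuation.map_eq_of_sub_lt (y := u) (x := 1) (by simpa using h2), map_one,
        mul_one] at this
    refine Subfield.subset_closure ⟨⟨algebraMap L _ e, (B.valuation_le_one_iff _).1
      (e2.le_one_iff_le_one.2 h3)⟩, ⟨e, rfl⟩, ?_⟩
    rw [eq_comm, ← sub_eq_zero, ← map_sub, residue_eq_zero_iff, B.valuation_lt_one_iff]
    refine e2.lt_one_iff_lt_one.2 ?_
    show W.valuation (f.1 - algebraMap L Ω e) < 1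
    rw [h1, ← mul_sub_one, map_mul]
    exact (mul_le_of_le_one_left' h3).trans_lt h2
  obtain ⟨H, -, h1, h2, σ, s1, s2⟩ := hI L _ o1 p hp ((chr _ hp).2 (e1.lt_one_iff_lt_one.2
    (by simpa using m2.trans_lt m1))) L (W.comap (algebraMap L Ω)) rfl (by
      rcases hc with ⟨h1, -⟩ | h1
      · obtain ⟨ζ, hζ⟩ := hζ h1
        exact Or.inl ⟨inferInstance, ⟨fun h _ => ⟨ζ, h ▸ hζ⟩, fun x => Subalgebra.algebraMap_mem _ x⟩⟩
      · exact Or.inr ⟨charP_of_injective_algebraMap (algebraMap K L).injective p,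
          Function.bijective_id⟩) L⟮θ⟯ B t2 t1 (fun B' => ⟨fun h => by
      have : Algebra.IsAlgebraic K L⟮θ⟯ := .trans K L _
      refine (hH L⟮θ⟯).unique ?_ (hB ▸ hW)
      rw [← show _ = A from o1, ← show _ = W.comap (algebraMap L Ω) from h]
      rfl, fun h => by rw [h, ← hB]; rfl⟩) (by
      rw [defect, hv, hr, t1, Subgroup.index_top, one_mul,
        show Module.finrank (⊤ : Subfield (ResidueField B)) (ResidueField B) = 1 from
          finrank_eq_one_iff_of_nonzero' 1 one_ne_zero |>.2 (fun x => ⟨⟨x, trivial⟩, mul_one x⟩),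
        Nat.div_one]
      exact hp.one_lt)
  have : IsAlgClosure L Ω := ⟨inferInstance, inferInstance⟩
  have hσ : ∀ f : L⟮θ⟯, σ.liftNormal Ω f = σ f := σ.liftNormal_commutes Ω
  have hθ : σ.liftNormal Ω θ ≠ θ := fun e => s1 (AlgEquiv.coe_toAlgHom_injective
    (adjoin_algHom_ext L (by
      rintro _ rfl
      exact Subtype.ext ((hσ ⟨_, _⟩).symm.trans e))))
  obtain ⟨t5, t6⟩ := t4 _ hθ
  have T0 : θ ≠ 0 := by rintro rfl; simp at hθ
  let g := AdjoinSimple.gen L θ
  have g0 : g ≠ 0 := fun e => T0 (congrArg Subtype.val e)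
  have v : ∀ f : L⟮θ⟯, algebraMap _ Ω ((σ f - f) / f) = (σ.liftNormal Ω f - f) / f :=
    fun f => by rw [hσ]; rfl
  have M0 : B.valuation (algebraMap L _ ⟨π, l1⟩) ≠ 0 := by simpa [Subtype.ext_iff] using m0
  have A0 : B.valuation ((σ g - g) / g) ≠ 0 := by
    rw [Valuation.ne_zero_iff, ← map_ne_zero (algebraMap L⟮θ⟯ Ω), v]
    exact div_ne_zero (sub_ne_zero.2 hθ) T0
  simp only [hv, Subgroup.mem_top, true_and, forall_true_left] at h1 h2 s2
  refine grp H h1 h2 (μ := Units.mk0 _ M0) (α := Units.mk0 _ A0) (n := p) (N := p * (p - 1))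
    (e2.le_one_iff_le_one.2 m1.le) ((s2 _).1 ⟨g, g0, rfl⟩) ?_ (fun β hβ => ?_)
  · rw [← Units.val_le_val, Units.val_pow_eq_pow_val, Units.val_mk0, Units.val_mk0, ← map_pow,
      e2.le_iff_le, map_pow, Valuation.comap_apply _ _ (_ / _), v]
    exact t6
  · obtain ⟨f, f0, hf⟩ := (s2 β).2 hβ
    rw [← Units.val_le_val, Units.val_pow_eq_pow_val, Units.val_mk0, ← hf, ← map_pow,
      e2.le_iff_le, map_pow, Valuation.comap_apply _ _ (_ / _), v]
    exact t5 f f.2 (fun e => f0 (Subtype.ext e))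

theorem result (K : Type) [Field K] (A : ValuationSubring K) (hA : A ≠ ⊤) (hH : Henselian A)
    (hI : ∀ (L : Type) [Field L] [Algebra K L] [Algebra.IsAlgebraic K L] (B : ValuationSubring L),
      Over A B → IndepField B) : RDR A := by
  intro p hp hc
  obtain ⟨W, hW, hu⟩ := hH (AlgebraicClosure K)
  have hinv := inv_val (K := K) W (fun σ => hu _ (by
    rw [← show _ = A from hW]
    ext x
    simp))
  have e := eqv W (algebraMap K (AlgebraicClosure K))
  rw [show _ = A from hW] at e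
  have p1 : W.valuation p < 1 := by simpa using e.lt_one_iff_lt_one.1 ((chr A hp).1 hc)
  have key := @contra K _ _ _ _ _ _ A hH hI W hW p hp hinv
  have base : ∀ π : K, π ≠ 0 → A.valuation π < 1 → A.valuation p ≤ A.valuation π →
      (CharZero K ∧ π = p ∨ CharP K p) → ∀ a, A.valuation a ≤ 1 →
      ∃ c, A.valuation (a - c ^ p) ≤ A.valuation π := by
    intro π h1 h2 h3 h4 a ha
    by_contra! h5
    refine key ⊥ (IntermediateField.algebraMap_mem _ π)
      (IntermediateField.algebraMap_mem _ a) (by simpa using h1) (e.lt_one_iff_lt_one.1 h2)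
      (by simpa using e.le_iff_le.1 h3) (e.le_one_iff_le_one.1 ha) ?_
      (h4.imp (fun h => ⟨h.1, by simp [h.2]⟩) id)
    rintro _ ⟨c, rfl⟩
    simpa using e.lt_iff_lt.1 (h5 c)
  refine ⟨fun h0 x => ?_, fun h0 x => ?_, fun ⟨⟨h1, h2⟩, h3⟩ => ?_⟩
  · obtain ⟨a, rfl⟩ := Ideal.Quotient.mk_surjective x
    have p0 : (p : K) ≠ 0 := by exact_mod_cast hp.ne_zero
    obtain ⟨c, h1⟩ := base p p0 ((chr A hp).1 hc) le_rfl (Or.inl ⟨h0, rfl⟩) a (A.valuation_le_one a)
    have h2 := le_one_of A.valuation hp (A.valuation_le_one a) (h1.trans ((chr A hp).1 hc).le)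
    refine ⟨Ideal.Quotient.mk _ ⟨c, (A.valuation_le_one_iff _).1 h2⟩, ?_⟩
    show _ ^ p = _
    rw [← map_pow, eq_comm, Ideal.Quotient.eq, Ideal.mem_span_singleton']
    refine ⟨⟨(a - c ^ p) / p, (A.valuation_le_one_iff _).1 ?_⟩, Subtype.ext ?_⟩
    · rw [map_div₀]; exact div_le_one_of_le₀ h1 zero_le
    · simp [p0]
  · obtain ⟨⟨x, hx⟩, rfl⟩ := Ideal.Quotient.mk_surjective x
    have : CharP (WithVal A.valuation) p :=
      charP_of_injective_ringHom (WithVal.equiv A.valuation).symm.toRingHom.injective p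
    obtain ⟨t, t0, t1⟩ : ∃ t : K, t ≠ 0 ∧ A.valuation t < 1 := by
      obtain ⟨t, ht⟩ : ∃ t, t ∉ A := by
        by_contra! h; exact hA (eq_top_iff.2 (fun x _ => h x))
      rw [← A.valuation_le_one_iff, not_le] at ht
      exact ⟨t⁻¹, fun h => by simp [inv_eq_zero.1 h] at ht, by
        rw [map_inv₀]; exact inv_lt_one_of_one_lt₀ ht⟩
    refine (compl hp (fun a ha y y0 => ?_) x hx).elim (fun z hz => ?_)
    swap
    · refine ⟨Ideal.Quotient.mk _ ⟨z, (pow_le_one_iff hp.ne_zero).1 (by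
        rw [← map_pow (Valued.v : Valuation A.valuation.Completion _), hz]; exact hx)⟩, ?_⟩
      show _ ^ p = _
      rw [← map_pow]
      exact congrArg _ (Subtype.ext hz)
    · have y1 : 0 < A.valuation y.ofVal := by simpa [zero_lt_iff] using y0
      by_cases h1 : A.valuation y.ofVal ≤ 1
      · obtain ⟨c, h2⟩ := base (t * y.ofVal) (mul_ne_zero t0 (by simpa using y0))
          (by rw [map_mul]; exact (mul_le_of_le_one_right' h1).trans_lt t1) (by simp) (Or.inr h0)
          a.ofVal ha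
        rw [Valuation.map_sub_swap, map_mul] at h2
        exact ⟨WithVal.toVal _ c, h2.trans_lt (mul_lt_of_lt_one_left y1 t1)⟩
      · refine ⟨0, ?_⟩
        rw [zero_pow hp.ne_zero, zero_sub, Valuation.map_neg]
        exact ha.trans_lt (not_le.1 h1)
  · have p0 : (p : K) ≠ 0 := by simpa using h1
    have : CharZero K := (CharP.ringChar_zero_iff_CharZero K).1 (by
      by_contra h
      have h4 := (chr A hp).1 hc
      have h5 := unit_nat A.valuation hp h4 (d := ringChar K) (fun ⟨k, hk⟩ => by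
        have := (CharP.char_prime_of_ne_zero K h).eq_one_or_self_of_dvd p ⟨k, hk⟩
        exact p0 (by rw [this.resolve_left hp.ne_one]; simp))
      simp at h5)
    have p2 : (p : AlgebraicClosure K) ≠ 0 := by exact_mod_cast hp.ne_zero
    obtain ⟨a, a1, a2⟩ := ramif W.valuation hp hinv p2 p1 (fun y y0 y1 => by
      simpa using e.le_iff_le.1 (h3 ⟨by simpa using y0, e.lt_one_iff_lt_one.2 y1⟩))
    exact key K⟮a⟯ (_root_.natCast_mem _ p) (mem_adjoin_simple_self K a) p2 p1 le_rfl a1 a2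
      (Or.inl ⟨this, rfl⟩)

end Pool.Agent.Results.MP_54a553_al.Rdr
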